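import Pool.Agent.LibBGM20.SG

/-! Separation of lengths, relative to the length of the average. -/

open MeasureTheory Set Filter Topology
open scoped ContDiff unitInterval

namespace BGM

open BGS
open Pool.BGR (PM upI pj)

/-- A slow rate. -/
theorem S2w_seq {w : ℝ → ℝ} (hw : Tendsto w atTop atTop) :
    ∃ v : ℕ → ℝ, Tendsto v atTop atTop ∧ ∀ (C : ℝ) (N₀ : ℕ), ∀ᶠ x : ℝ in atTop,
      ∃ N : ℕ, N₀ ≤ N ∧ C * x ≤ N ∧ N * v N + C * x ≤ w x * x := by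
  have h1 : ∀ k : ℕ, ∃ X : ℝ, ∀ y, X ≤ y → (k : ℝ) ≤ w y := fun k =>
    (hw.eventually (eventually_ge_atTop (k : ℝ))).exists_forall_of_atTop
  choose X hX using h1
  have hsq : Tendsto (fun n : ℕ => √(n : ℝ)) atTop atTop :=
    Real.tendsto_sqrt_atTop.comp tendsto_natCast_atTop_atTop
  refine ⟨fun n => √(S2_K X (√(n : ℝ)) : ℝ), ?_, fun C N₀ => ?_⟩
  · exact Real.tendsto_sqrt_atTop.comp
      (tendsto_natCast_atTop_atTop.comp ((S2_K_tendsto X).comp hsq))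
  · obtain ⟨b, hb⟩ := exists_nat_ge ((2 * (|C| + 1)) ^ 2)
    filter_upwards [(S2_K_tendsto X).eventually_ge_atTop b, eventually_ge_atTop (|C| + 1),
      eventually_ge_atTop ((N₀ : ℝ) + 1)] with x h2 h3 h4
    have hC := abs_nonneg C
    have hx : 0 < x := by linarith
    set k := S2_K X x with hk
    have hkb : (2 * (|C| + 1)) ^ 2 ≤ (k : ℝ) := hb.trans (by exact_mod_cast h2)
    have hk0 : k ≠ 0 := by
      rintro h5
      rw [h5] at hkb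
      have : (0 : ℝ) < (2 * (|C| + 1)) ^ 2 := by positivity
      simp only [CharP.cast_eq_zero] at hkb
      linarith
    have hkw : (k : ℝ) ≤ w x := hX k x (S2_K_spec X hk0)
    have hN : ((⌈|C| * x⌉₊ + N₀ : ℕ) : ℝ) ≤ (|C| + 1) * x := by
      have h5 := (Nat.ceil_lt_add_one (show (0 : ℝ) ≤ |C| * x by positivity)).le
      push_cast
      linarith
    refine ⟨⌈|C| * x⌉₊ + N₀, Nat.le_add_left _ _, ?_, ?_⟩
    · have h5 := Nat.le_ceil (|C| * x)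
      have h6 : C * x ≤ |C| * x := mul_le_mul_of_nonneg_right (le_abs_self C) hx.le
      push_cast
      have : (0 : ℝ) ≤ N₀ := Nat.cast_nonneg _
      linarith
    · set N : ℝ := ((⌈|C| * x⌉₊ + N₀ : ℕ) : ℝ) with hNd
      have hN0 : 0 ≤ N := Nat.cast_nonneg _
      have h5 : √N ≤ x := by
        rw [Real.sqrt_le_left hx.le]
        calc N ≤ (|C| + 1) * x := hN
          _ ≤ x * x := mul_le_mul_of_nonneg_right h3 hx.le
          _ = x ^ 2 := by ring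
      have h6 : (S2_K X (√N) : ℝ) ≤ k := by exact_mod_cast S2_K_mono X h5
      have h7 : √(S2_K X (√N) : ℝ) ≤ √(k : ℝ) := Real.sqrt_le_sqrt h6
      have h8 : 2 * (|C| + 1) ≤ √(k : ℝ) := Real.le_sqrt_of_sq_le hkb
      have h9 : √(k : ℝ) * √(k : ℝ) = k := Real.mul_self_sqrt (Nat.cast_nonneg _)
      have h10 : N * √(S2_K X (√N) : ℝ) ≤ (|C| + 1) * x * √(k : ℝ) :=
        mul_le_mul hN h7 (Real.sqrt_nonneg _) (by positivity)
      have h11 : C * x ≤ |C| * x := mul_le_mul_of_nonneg_right (le_abs_self C) hx.le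
      have h12 : (|C| + 1) * √(k : ℝ) + |C| ≤ k := by nlinarith
      calc N * √(S2_K X (√N) : ℝ) + C * x ≤ (|C| + 1) * x * √(k : ℝ) + |C| * x := by linarith
        _ = ((|C| + 1) * √(k : ℝ) + |C|) * x := by ring
        _ ≤ k * x := mul_le_mul_of_nonneg_right h12 hx.le
        _ ≤ w x * x := mul_le_mul_of_nonneg_right hkw hx.le

/-- Separation of the lengths of the closed geodesics at the scale of the window `L`, relative to
the length `H` of the average: integer combinations of at most `r` lengths of primitive classes,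
pairwise neither conjugate nor inverse conjugate, with coefficients and lengths at most `C L T`, are
at least `exp (C L T) / H T`. -/
def SepG2 (Γ : Type) [Group Γ] [MulAction Γ Pl] (m : Pl → Co) (L H : ℝ → ℝ) : Prop :=
  ∀ (r : ℕ) (C : ℝ), ∀ᶠ T : ℝ in atTop, ∀ (s : Finset Γ) (e : Γ → ℤ), s.card ≤ r →
    (∀ g ∈ s, Prim g) →
    (∀ g ∈ s, ∀ g' ∈ s, g ≠ g' → ∀ γ : Γ, γ * g * γ⁻¹ ≠ g' ∧ γ * g * γ⁻¹ ≠ g'⁻¹) →
    (∀ g ∈ s, (|e g| : ℝ) ≤ C * L T) → (∀ g ∈ s, tl m g ≤ C * L T) →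
    (∃ g ∈ s, e g ≠ 0) → Real.exp (C * L T) ≤ H T * |∑ g ∈ s, e g * tl m g|

variable {Γ : Type} [Group Γ] [MulAction Γ Pl] {D : Set Pl}

theorem SG2_det {m : Pl → Co} {w : ℝ → ℝ} {v : ℕ → ℝ}
    (hG : ∀ n : ℕ, ∀ᶠ N : ℕ in atTop, ∀ g : Fin n → Γ, (∀ i, Prim (g i)) →
          (∀ i j, i ≠ j → ∀ γ : Γ, γ * g i * γ⁻¹ ≠ g j ∧ γ * g i * γ⁻¹ ≠ (g j)⁻¹) →
          (∀ i, tl m (g i) ≤ N) → ∀ a : Fin n → ℤ, a ≠ 0 → (∀ i, |a i| ≤ N) →
          Real.exp (-(N * v N)) ≤ |∑ i, a i * tl m (g i)|)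
    (hS : ∀ (C : ℝ) (N₀ : ℕ), ∀ᶠ x : ℝ in atTop,
      ∃ N : ℕ, N₀ ≤ N ∧ C * x ≤ N ∧ N * v N + C * x ≤ w x * x)
    {L H : ℝ → ℝ} (hL : Tendsto L atTop atTop)
    (hH : ∀ᶠ T in atTop, Real.exp (w (L T) * L T) ≤ H T) : SepG2 Γ m L H := by
  intro r C
  have hall := (Filter.eventually_all_finset (Finset.range (r + 1))).mpr
    (fun n (_ : n ∈ Finset.range (r + 1)) => hG n)
  obtain ⟨N₀, hN₀⟩ := Filter.eventually_atTop.mp hall
  filter_upwards [hL.eventually (hS C N₀), hH] with T hT hHT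
  intro s e hs hprim hconj he htl hne
  obtain ⟨N, hN0, hCN, hNw⟩ := hT
  have hmem : ∀ i : Fin s.card, ((s.equivFin.symm i : s) : Γ) ∈ s := fun i =>
    (s.equivFin.symm i).2
  have hmain := hN₀ N hN0 s.card (Finset.mem_range.mpr (by omega))
    (fun i => ((s.equivFin.symm i : s) : Γ)) (fun i => hprim _ (hmem i))
    (fun i j hij γ => hconj _ (hmem i) _ (hmem j)
      (fun h => hij (s.equivFin.symm.injective (Subtype.ext h))) γ)
    (fun i => (htl _ (hmem i)).trans hCN)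
    (fun i => e ((s.equivFin.symm i : s) : Γ))
    (by
      intro h0
      obtain ⟨g, hg, hge⟩ := hne
      apply hge
      have := congrFun h0 (s.equivFin ⟨g, hg⟩)
      simpa using this)
    (by
      intro i
      have h1 : |((e ((s.equivFin.symm i : s) : Γ) : ℤ) : ℝ)| ≤ (N : ℝ) :=
        (he _ (hmem i)).trans hCN
      exact_mod_cast h1)
  have hsum : ∑ i : Fin s.card, (e ((s.equivFin.symm i : s) : Γ) : ℝ)
      * tl m ((s.equivFin.symm i : s) : Γ) = ∑ g ∈ s, (e g : ℝ) * tl m g := by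
    rw [← Finset.sum_coe_sort s (fun g => (e g : ℝ) * tl m g)]
    exact Equiv.sum_comp s.equivFin.symm (fun g : s => (e (g : Γ) : ℝ) * tl m (g : Γ))
  rw [hsum] at hmain
  calc Real.exp (C * L T) ≤ Real.exp (w (L T) * L T) * Real.exp (-(N * v N)) := by
        rw [← Real.exp_add, Real.exp_le_exp]
        linarith
    _ ≤ H T * |∑ g ∈ s, (e g : ℝ) * tl m g| :=
        mul_le_mul hHT hmain (Real.exp_pos _).le ((Real.exp_pos _).le.trans hHT)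

theorem sep_ae2 (hX : Surface Γ D) (h1 : H1 Γ) {w : ℝ → ℝ} (hw : Tendsto w atTop atTop) :
    ∃ φ : (Dir → I) → Pl → ℝ,
      (∀ ξ, φ ξ ∈ Test Γ) ∧ (∀ z, Measurable fun ξ => φ ξ z) ∧
      (∀ m : Mt Γ D, ∀ U ∈ 𝓝 m, ∃ s₀ : ℝ, 0 < s₀ ∧ ∀ s : ℝ, 0 < s → s ≤ s₀ → ∀ ξ,
        ∃ m' ∈ U, ∃ q : ℝ, 0 < q ∧ ∀ z, m'.1.1 z = (q * Real.exp (s * φ ξ z)) • m.1.1 z) ∧
      ∀ m : Mt Γ D, ∀ ψ ∈ Test Γ, ∀ s : ℝ, 0 < s → s ≤ 1 → ∀ᵐ ξ ∂(PM Dir), ∀ m' : Mt Γ D,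
        (∃ q : ℝ, 0 < q ∧ ∀ z, m'.1.1 z = (q * Real.exp (ψ z + s * φ ξ z)) • m.1.1 z) →
        ∀ L H : ℝ → ℝ, Tendsto L atTop atTop →
          (∀ᶠ T in atTop, Real.exp (w (L T) * L T) ≤ H T) → SepG2 Γ m'.1.1 L H := by
  obtain ⟨v, hv, hS⟩ := S2w_seq hw
  obtain ⟨φ, ha, hb, hc, hd⟩ := GM hX h1 hv
  refine ⟨φ, ha, hb, hc, ?_⟩
  intro m ψ hψ s hs hs1
  filter_upwards [hd m ψ hψ s hs hs1] with ξ hξ
  intro m' hm' L H hL hH
  exact SG2_det (hξ m' hm') hS hL hH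

end BGM
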