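import Pool.Agent.LibGWa.U5
import Pool.Agent.LibSW35.Mom

/-! Moments of the sum over the closed geodesics, short averages. -/

open MeasureTheory Set Filter Topology FG33 Mes
open scoped ContDiff

namespace GWin

/-- Separation of the lengths, relative to the length of the average. -/
def Sep2 (G : Geo) (L H : ℝ → ℝ) : Prop :=
  ∀ (r : ℕ) (C : ℝ), ∀ᶠ T : ℝ in atTop, ∀ (s : Finset G.P) (e : G.P → ℤ), s.card ≤ r →
    (∃ p ∈ s, e p ≠ 0) → (∀ p ∈ s, |(e p : ℝ)| ≤ C * L T ∧ G.len p ≤ C * L T) →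
    Real.exp (C * L T) ≤ H T * |∑ p ∈ s, (e p : ℝ) * G.len p|

/-- The separation in the form of `TM`. -/
theorem sep_apply2 {G : Geo} {κ : ℝ} (h : Ok G κ) {L H : ℝ → ℝ} (hL : Tendsto L atTop atTop)
    (hS : Sep2 G L H) (r : ℕ) {R C₀ : ℝ} (hR : 0 ≤ R) (hC₀ : 0 ≤ C₀) :
    ∀ᶠ T : ℝ in atTop, ∀ e : G.P →₀ ℤ, e ≠ 0 → e.support.card ≤ r →
      (∀ p, |(e p : ℝ)| * G.len p ≤ r * (R * L T)) →
      Real.exp (C₀ * L T) ≤ H T * |e.sum fun p n => n * G.len p| := by
  obtain ⟨l0, hl0, hl⟩ := exists_l0 h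
  filter_upwards [hS r (r * R / l0 + r * R + C₀), hL.eventually (eventually_ge_atTop 1)] with T hT hL1
  intro e he hcard hbd
  have hr : 0 ≤ (r : ℝ) := Nat.cast_nonneg r
  have h5 : 0 ≤ r * R / l0 * L T := by positivity
  have h6 : 0 ≤ r * R * L T := by positivity
  have h7 : 0 ≤ C₀ * L T := by positivity
  refine le_trans (Real.exp_le_exp.2 ?_) ((hT e.support e hcard ?_ ?_).trans (le_of_eq rfl))
  · nlinarith
  · obtain ⟨p, hp⟩ := Finsupp.support_nonempty_iff.2 he
    exact ⟨p, hp, Finsupp.mem_support_iff.1 hp⟩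
  · intro p hp
    have h1 : (1 : ℝ) ≤ |(e p : ℝ)| := by
      have := Int.one_le_abs (Finsupp.mem_support_iff.1 hp)
      exact_mod_cast this
    have h2 := hbd p
    have h3 := hl p
    have h4 := h.pos p
    constructor
    · have h8 : |(e p : ℝ)| * l0 ≤ r * (R * L T) := by nlinarith
      rw [← le_div_iff₀ hl0] at h8
      calc |(e p : ℝ)| ≤ r * (R * L T) / l0 := h8
        _ = r * R / l0 * L T := by ring
        _ ≤ _ := by nlinarith
    · nlinarith

theorem osc_moments2 {G : Geo} {κ : ℝ} (h : Ok G κ) (hSR : SumRule G) {L : ℝ → ℝ}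
    (hL : Tendsto L atTop atTop) {H : ℝ → ℝ} (hH : ∀ᶠ T in atTop, 0 < H T) (hS : Sep2 G L H)
    {a : ℝ → ℂ} (ha : IsAmp a) {R : ℝ} (hR0 : 0 ≤ R)
    (hR : ∀ s, R ≤ |s| → a s = 0) (r : ℕ) :
    Tendsto (fun T => (1 / H T) * ∫ u in T..T + H T, Osc G a R (L T) u ^ r) atTop
      (𝓝 (gaussMom (vg a) r)) := by
  classical
  obtain ⟨C, hC0, hC⟩ := torus_moments2 r
  obtain ⟨A, hA⟩ : ∃ A, ∀ s, ‖a s‖ ≤ A := by
    obtain ⟨x, hx⟩ := ha.smooth.continuous.norm.exists_forall_ge_of_hasCompactSupport ha.supp.norm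
    exact ⟨_, hx⟩
  obtain ⟨C1, hC1, h1⟩ := amp_sum_le h hA
  obtain ⟨C2, hC2, h2⟩ := amp_total_le h hA hR0
  have hV : Tendsto (fun T => Vr G a R (L T)) atTop (𝓝 (vg a)) :=
    (Vr_tendsto h hSR (ha.smooth.of_le (by exact_mod_cast le_top)) hR0
      (fun s hs => hR s (hs.trans (le_abs_self s))) hA).comp hL
  have hG : Tendsto (fun T => gaussMom (Vr G a R (L T)) r) atTop (𝓝 (gaussMom (vg a) r)) :=
    ((gaussMom_cont r).tendsto _).comp hV
  -- the error
  have hE1 : Tendsto (fun T => C * (1 + √(Vr G a R (L T))) ^ r * (C1 / L T)) atTop (𝓝 0) := by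
    have h3 : Tendsto (fun T => C1 / L T) atTop (𝓝 0) := tendsto_const_nhds.div_atTop hL
    have h5 : Tendsto (fun T => √(Vr G a R (L T))) atTop (𝓝 (√(vg a))) :=
      (Real.continuous_sqrt.tendsto _).comp hV
    have h4 := (((h5.const_add 1).pow r).const_mul C).mul h3
    simpa using h4
  have hE2 : Tendsto (fun T : ℝ => 2 * Real.exp (-L T)) atTop (𝓝 0) := by
    have := (Real.tendsto_exp_neg_atTop_nhds_zero.comp hL).const_mul 2
    simpa using this
  have hE := hE1.add hE2
  rw [add_zero] at hE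
  -- eventually
  have hev : ∀ᶠ T in atTop, |(1 / H T) * (∫ u in T..T + H T, Osc G a R (L T) u ^ r)
      - gaussMom (Vr G a R (L T)) r| ≤ C * (1 + √(Vr G a R (L T))) ^ r * (C1 / L T)
        + 2 * Real.exp (-L T) := by
    filter_upwards [hH, hL.eventually (eventually_ge_atTop (max 1 C1)),
      sep_apply2 h hL hS r hR0 (show (0 : ℝ) ≤ r * C2 + 1 by positivity)] with T hT0 hT2 hT4
    have hL1 : 1 ≤ L T := (le_max_left _ _).trans hT2
    have hL2 : C1 ≤ L T := (le_max_right _ _).trans hT2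
    have hL0 : 0 < L T := by linarith
    have hz : ∀ (p : G.P) (k : ℕ), R * L T < ((k : ℝ) + 1) * G.len p → amp G a (L T) p k = 0 := by
      intro p k hk
      unfold amp
      rw [hR, mul_zero]
      have h4 := h.pos p
      rw [abs_of_nonneg (by positivity), le_div_iff₀ hL0]
      exact hk.le
    have h3 := hC G.P G.len (Sf G (R * L T)) (fun q => amp G a (L T) q.1 (q.2 - 1)) (R * L T)
      (Real.exp ((r * C2 + 1) * L T) / H T) T (H T) (C1 / L T) (fun p => (h.pos p).le) (fun q hq => (mem_Sf hq).2.1)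
      (fun q hq => (mem_Sf hq).2.2.2) (by positivity) hT0 (by positivity)
      (by rw [div_le_one hL0]; exact hL2)
      (by
        intro p S' hS' hp
        have h4 : ∑ q ∈ S', ‖amp G a (L T) q.1 (q.2 - 1)‖
            = ∑ k ∈ S'.image (fun q => q.2 - 1), ‖amp G a (L T) p k‖ := by
          rw [Finset.sum_image]
          · refine Finset.sum_congr rfl fun q hq => ?_
            rw [hp q hq]
          · intro q hq q' hq' he
            have h5 := (mem_Sf (hS' hq)).2.1
            have h6 := (mem_Sf (hS' hq')).2.1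
            dsimp only at he
            exact Prod.ext ((hp q hq).trans (hp q' hq').symm) (by omega)
        rw [h4]
        refine (Finset.sum_le_sum_of_subset_of_nonneg (t := Finset.range (KK G (R * L T))) ?_
          fun _ _ _ => norm_nonneg _).trans (h1 (L T) p _ hL0)
        intro k hk
        rw [Finset.mem_image] at hk
        obtain ⟨q, hq, rfl⟩ := hk
        have h5 := (mem_Sf (hS' hq)).2.2.1
        have h6 := (mem_Sf (hS' hq)).2.1
        rw [Finset.mem_range]
        omega)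
      (by
        intro e he hcard hbd
        rw [div_le_iff₀' hT0]
        exact hT4 e he hcard hbd)
    have e1 : ∀ u : ℝ, (∑ q ∈ Sf G (R * L T), (amp G a (L T) q.1 (q.2 - 1) *
        Complex.exp (-((u * (q.2 * G.len q.1) : ℝ) : ℂ) * Complex.I)).re)
          = Osc G a R (L T) u := by
      intro u
      refine Sf_sum G (R * L T) (fun p k => (amp G a (L T) p k * Complex.exp
        (-((u * (((k : ℝ) + 1) * G.len p) : ℝ) : ℂ) * Complex.I)).re) ?_ _ ?_
      · intro p k hk
        rw [hz p k hk, zero_mul, Complex.zero_re]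
      · intro p k
        dsimp only
        rw [Nat.add_sub_cancel]
        push_cast
        rfl
    have e2 : (∑ q ∈ Sf G (R * L T), ‖amp G a (L T) q.1 (q.2 - 1)‖ ^ 2 / 2) = Vr G a R (L T) := by
      unfold Vr
      rw [Finset.mul_sum]
      simp_rw [Finset.mul_sum]
      refine Sf_sum G (R * L T) (fun p k => 1 / 2 * ‖amp G a (L T) p k‖ ^ 2) ?_ _ ?_
      · intro p k hk
        rw [hz p k hk]
        simp
      · intro p k
        dsimp only
        rw [Nat.add_sub_cancel]
        ring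
    have e3 : (∑ q ∈ Sf G (R * L T), ‖amp G a (L T) q.1 (q.2 - 1)‖) = ∑ p ∈ ball G (R * L T),
        ∑ k ∈ Finset.range (KK G (R * L T)), ‖amp G a (L T) p k‖ := by
      refine Sf_sum G (R * L T) (fun p k => ‖amp G a (L T) p k‖) ?_ _ ?_
      · intro p k hk
        rw [hz p k hk]
        simp
      · intro p k
        dsimp only
        rw [Nat.add_sub_cancel]
    simp only [e1, e2, e3] at h3
    refine h3.trans ?_
    have h5 := h2 (L T) (KK G (R * L T)) hL1
    have h6 : (∑ p ∈ ball G (R * L T), ∑ k ∈ Finset.range (KK G (R * L T)),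
        ‖amp G a (L T) p k‖) ^ r / (H T * (Real.exp ((r * C2 + 1) * L T) / H T)) ≤
          Real.exp (-L T) := by
      rw [mul_div_cancel₀ _ hT0.ne', div_le_iff₀ (Real.exp_pos _), ← Real.exp_add]
      have h9 : 0 ≤ ∑ p ∈ ball G (R * L T), ∑ k ∈ Finset.range (KK G (R * L T)),
          ‖amp G a (L T) p k‖ := Finset.sum_nonneg fun p _ => Finset.sum_nonneg fun k _ => norm_nonneg _
      refine (pow_le_pow_left₀ h9 h5 r).trans ?_
      rw [← Real.exp_nat_mul, Real.exp_le_exp]
      linarith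
    rw [mul_div_assoc]
    exact add_le_add le_rfl (mul_le_mul_of_nonneg_left h6 (by norm_num))
  have h0 : Tendsto (fun T => (1 / H T) * (∫ u in T..T + H T, Osc G a R (L T) u ^ r)
      - gaussMom (Vr G a R (L T)) r) atTop (𝓝 0) :=
    squeeze_zero_norm' (hev.mono fun _ h => h) hE
  have h3 := h0.add hG
  simpa using h3

end GWin
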