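import Pool.Agent.LibGWa.U6
import Pool.Agent.LibSW35.U5

/-! Moments of the linear statistic, short averages. -/

open MeasureTheory Set Filter Topology FG33 Mes
open scoped ContDiff

namespace GWin

theorem st_moments2 {G : Geo} {κ : ℝ} (h : Ok G κ) (hSR : SumRule G) {lev : ℕ → ℝ}
    (hl : Lev lev) (hT : Trace G lev) {L : ℝ → ℝ}
    (hL : Tendsto L atTop atTop) (hL' : Tendsto (fun T => L T / Real.log T) atTop (𝓝 0))
    {H : ℝ → ℝ} (hH : ∀ᶠ T in atTop, 0 < H T) (hS : Sep2 G L H) {a : ℝ → ℂ} (ha : IsAmp a)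
    (r : ℕ) :
    Tendsto (fun T => (1 / H T) * ∫ u in T..T + H T, st lev a (L T) u ^ r) atTop
      (𝓝 (gaussMom (vg a) r)) := by
  obtain ⟨R, hR0, hR⟩ : ∃ R : ℝ, 0 ≤ R ∧ ∀ s, R ≤ |s| → a s = 0 := by
    obtain ⟨R, hR0, hR⟩ := ha.supp.isCompact.isBounded.exists_pos_norm_lt
    refine ⟨R, hR0.le, fun s hs => ?_⟩
    by_contra h0
    have := hR s (subset_tsupport a h0)
    rw [Real.norm_eq_abs] at this
    linarith
  obtain ⟨C, hC, hred⟩ := reduction h hl hT ha hR0 (fun s hs => hR s hs.le)
  have hO := osc_moments2 h hSR hL hH hS ha hR0 hR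
  -- the error
  have hε1 : Tendsto (fun T : ℝ => C / L T) atTop (𝓝 0) := tendsto_const_nhds.div_atTop hL
  have hε2 : Tendsto (fun T : ℝ => C * Real.exp (C * L T) * T ^ (-(1 / 2) : ℝ)) atTop (𝓝 0) := by
    have h1 : Tendsto (fun T : ℝ => C * T ^ (-(1 / 4) : ℝ)) atTop (𝓝 0) := by
      have := (tendsto_rpow_neg_atTop (show (0 : ℝ) < 1 / 4 by norm_num)).const_mul C
      simpa using this
    refine squeeze_zero' ?_ ?_ h1
    · filter_upwards [eventually_gt_atTop 0] with T hT
      positivity
    · have hsmall : ∀ᶠ T : ℝ in atTop, L T / Real.log T ≤ 1 / (4 * C) :=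
        (hL'.eventually (gt_mem_nhds (by positivity))).mono fun _ h => h.le
      filter_upwards [hsmall, eventually_gt_atTop 1] with T h2 h3
      have hT0 : 0 < T := by linarith
      have hlog : 0 < Real.log T := Real.log_pos h3
      rw [div_le_iff₀ hlog] at h2
      have h4 : Real.exp (C * L T) ≤ T ^ (1 / 4 : ℝ) := by
        rw [Real.rpow_def_of_pos hT0, Real.exp_le_exp]
        calc C * L T ≤ C * (1 / (4 * C) * Real.log T) := by gcongr
          _ = _ := by field_simp
      calc C * Real.exp (C * L T) * T ^ (-(1 / 2) : ℝ) ≤ C * T ^ (1 / 4 : ℝ) * T ^ (-(1 / 2) : ℝ) := by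
            gcongr
        _ = C * T ^ (-(1 / 4) : ℝ) := by
            rw [mul_assoc, ← Real.rpow_add hT0]
            norm_num
  have hε := hε1.add hε2
  rw [add_zero] at hε
  have hbound : Tendsto (fun T => (C / L T + C * Real.exp (C * L T) * T ^ (-(1 / 2) : ℝ)) *
      (r * 2 ^ (2 * r)) * (1 + (1 / H T) * ∫ u in T..T + H T, Osc G a R (L T) u ^ (2 * r))) atTop
      (𝓝 0) := by
    have := (hε.mul_const ((r : ℝ) * 2 ^ (2 * r))).mul ((hO (2 * r)).const_add 1)
    simpa using this
  have h0 : Tendsto (fun T => (1 / H T) * (∫ u in T..T + H T, st lev a (L T) u ^ r) -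
      (1 / H T) * ∫ u in T..T + H T, Osc G a R (L T) u ^ r) atTop (𝓝 0) := by
    refine squeeze_zero_norm' ?_ hbound
    filter_upwards [hε.eventually (gt_mem_nhds one_pos), hL.eventually (eventually_ge_atTop 1),
      eventually_ge_atTop 1, hH] with T h1 h2 h3 hH0
    have hT0 : 0 < T := by linarith
    have hL0 : 0 < L T := by linarith
    set ε := C / L T + C * Real.exp (C * L T) * T ^ (-(1 / 2) : ℝ) with hεd
    have hc1 : Continuous fun u => st lev a (L T) u ^ r := (st_cont ha hl hL0).pow r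
    have hc2 : Continuous fun u => Osc G a R (L T) u ^ r := (Osc_cont G a R (L T)).pow r
    have hc3 : Continuous fun u => Osc G a R (L T) u ^ (2 * r) :=
      (Osc_cont G a R (L T)).pow (2 * r)
    rw [← mul_sub, ← intervalIntegral.integral_sub (hc1.intervalIntegrable _ _)
      (hc2.intervalIntegrable _ _), Real.norm_eq_abs, abs_mul, abs_of_pos (by positivity)]
    have h4 : |∫ u in T..T + H T, (st lev a (L T) u ^ r - Osc G a R (L T) u ^ r)|
        ≤ ∫ u in T..T + H T, ε * (r * 2 ^ (2 * r)) * (1 + Osc G a R (L T) u ^ (2 * r)) := by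
      rw [← Real.norm_eq_abs]
      refine intervalIntegral.norm_integral_le_of_norm_le (by linarith) ?_
        ((continuous_const.mul (continuous_const.add hc3)).intervalIntegrable _ _)
      refine Eventually.of_forall fun u hu => ?_
      rw [Real.norm_eq_abs]
      refine pow_diff ?_ h1.le r
      refine (hred (L T) u h2 (h3.trans hu.1.le)).trans ?_
      have h5 : u ^ (-(1 / 2) : ℝ) ≤ T ^ (-(1 / 2) : ℝ) :=
        Real.rpow_le_rpow_of_nonpos hT0 hu.1.le (by norm_num)
      rw [hεd]
      gcongr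
    calc 1 / H T * |∫ u in T..T + H T, (st lev a (L T) u ^ r - Osc G a R (L T) u ^ r)|
        ≤ 1 / H T * ∫ u in T..T + H T, ε * (r * 2 ^ (2 * r)) * (1 + Osc G a R (L T) u ^ (2 * r)) := by
          gcongr
      _ = _ := by
        rw [intervalIntegral.integral_const_mul, intervalIntegral.integral_add
          (continuous_const.intervalIntegrable _ _) (hc3.intervalIntegrable _ _),
          intervalIntegral.integral_const, smul_eq_mul]
        field_simp
        ring
  have h1 := h0.add (hO r)
  simpa using h1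

end GWin
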