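import Pool.Agent.LibGWa.U8
import Pool.Agent.LibSW35.U6

/-! The value distribution, and the abstract theorem, short averages. -/

open MeasureTheory ProbabilityTheory Set Filter Topology FG33 Mes
open scoped ContDiff

namespace GWin

/-- The law of a continuous function on `[T, T + h]`. -/
theorem law_exists2 {X : ℝ → ℝ} (hX : Continuous X) (T : ℝ) {h : ℝ} (hh : 0 < h) :
    ∃ P : ProbabilityMeasure ℝ, (∀ r : ℕ, Integrable (fun x : ℝ => x ^ r) (P : Measure ℝ)) ∧
      (∀ r : ℕ, ∫ x, x ^ r ∂(P : Measure ℝ) = (1 / h) * ∫ u in T..T + h, X u ^ r) ∧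
      ∀ F : BoundedContinuousFunction ℝ ℝ, ∫ x, F x ∂(P : Measure ℝ)
        = (1 / h) * ∫ u in T..T + h, F (X u) := by
  set Y : ℝ → ℝ := fun k => X (T + max 0 (min k h)) with hY
  have hYc : Continuous Y := hX.comp (by fun_prop)
  obtain ⟨B, hB⟩ : ∃ B, ∀ k, |Y k| ≤ B := by
    obtain ⟨B, hB⟩ := (isCompact_Icc (a := T) (b := T + h)).exists_bound_of_continuousOn
      hX.continuousOn
    refine ⟨B, fun k => ?_⟩
    refine hB _ ⟨by linarith [le_max_left 0 (min k h)], ?_⟩
    have : max 0 (min k h) ≤ h := max_le hh.le (min_le_right _ _)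
    linarith
  obtain ⟨P, hP1, hP2, hP3⟩ := law_exists hYc.measurable (fun k _ => hB k) hh
  have key : ∀ g : ℝ → ℝ, avg h (fun k => g (Y k)) = (1 / h) * ∫ u in T..T + h, g (X u) := by
    intro g
    unfold avg
    congr 1
    have h1 : ∫ k in (0 : ℝ)..h, g (Y k) = ∫ k in (0 : ℝ)..h, (fun u => g (X u)) (T + k) := by
      refine intervalIntegral.integral_congr fun k hk => ?_
      rw [uIcc_of_le hh.le] at hk
      dsimp only
      rw [hY]
      dsimp only
      rw [min_eq_left hk.2, max_eq_right hk.1]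
    rw [h1, intervalIntegral.integral_comp_add_left (fun u => g (X u)) T, add_zero]
  refine ⟨P, hP1, fun r => ?_, fun F => ?_⟩
  · rw [hP2, key (fun x => x ^ r)]
  · rw [hP3, key F]

/-- From the moments to the law. -/
theorem law_of_mom2 {X : ℝ → ℝ → ℝ} {v : ℝ} (hv : 0 ≤ v) (hX : ∀ᶠ T in atTop, Continuous (X T))
    {H : ℝ → ℝ} (hH : ∀ᶠ T in atTop, 0 < H T)
    (hm : ∀ r : ℕ, Tendsto (fun T => (1 / H T) * ∫ u in T..T + H T, X T u ^ r) atTop
      (𝓝 (gaussMom v r))) (F : BoundedContinuousFunction ℝ ℝ) :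
    Tendsto (fun T => (1 / H T) * ∫ u in T..T + H T, F (X T u)) atTop
      (𝓝 (∫ y, F y ∂(gaussianReal 0 v.toNNReal))) := by
  refine tendsto_of_seq_tendsto fun t ht => ?_
  obtain ⟨T₀, hT₀⟩ := (hX.and hH).exists_forall_of_atTop
  set s : ℕ → ℝ := fun n => max (t n) T₀ with hs
  have hs0 : ∀ n, 0 < H (s n) := fun n => (hT₀ (s n) (le_max_right _ _)).2
  have hsc : ∀ n, Continuous (X (s n)) := fun n => (hT₀ (s n) (le_max_right _ _)).1
  have hst : s =ᶠ[atTop] t := by
    filter_upwards [ht.eventually (eventually_ge_atTop T₀)] with n hn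
    exact max_eq_left hn
  have hst' : Tendsto s atTop atTop := ht.congr' hst.symm
  choose P hP1 hP2 hP3 using fun n => law_exists2 (hsc n) (s n) (hs0 n)
  have h1 := moment_method hv P hP1 (fun r => by
    simp_rw [hP2]
    exact (hm r).comp hst') F
  simp_rw [hP3] at h1
  refine h1.congr' ?_
  filter_upwards [hst] with n hn
  rw [hn]
  rfl

/-- The abstract theorem: Gaussian moments and law, with the variance of the Gaussian orthogonal
ensemble. -/
theorem main2 {G : Geo} {κ : ℝ} (h : Ok G κ) (hSR : SumRule G) {lev : ℕ → ℝ}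
    (hl : Lev lev) (hT : Trace G lev) {L : ℝ → ℝ}
    (hL : Tendsto L atTop atTop) (hL' : Tendsto (fun T => L T / Real.log T) atTop (𝓝 0))
    {H : ℝ → ℝ} (hH : ∀ᶠ T in atTop, 0 < H T) (hS : Sep2 G L H) {a : ℝ → ℂ} (ha : IsAmp a) :
    (∀ F : ℝ → ℝ, Continuous F → (∃ B, ∀ y, |F y| ≤ B) →
      Tendsto (fun T : ℝ => (1 / H T) * ∫ τ in T..T + H T, F (st lev a (L T) τ)) atTop
        (𝓝 (∫ y, F y ∂(gaussianReal 0 (varGOE a))))) ∧
    ∀ r : ℕ, Tendsto (fun T : ℝ => (1 / H T) * ∫ τ in T..T + H T, st lev a (L T) τ ^ r) atTop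
        (𝓝 (∫ y, y ^ r ∂(gaussianReal 0 (varGOE a)))) := by
  have hm := st_moments2 h hSR hl hT hL hL' hH hS ha
  have hc : ∀ᶠ T in atTop, Continuous (st lev a (L T)) := by
    filter_upwards [hL.eventually (eventually_gt_atTop 0)] with T hT
    exact st_cont ha hl hT
  constructor
  · rintro F hF ⟨B, hB⟩
    rw [varGOE_eq ha]
    exact law_of_mom2 (vg_nonneg a) hc hH hm (BoundedContinuousFunction.ofNormedAddCommGroup F hF B hB)
  · intro r
    rw [gauss_moments, varGOE_eq ha, Real.coe_toNNReal _ (vg_nonneg a)]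
    exact hm r

end GWin
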