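import Pool.Agent.LibGWa.U9
import Pool.Agent.LibSW35.U8
import Pool.Agent.LibFG35.Defs

/-! The abstract theorem for the spectrum of a surface, short averages. -/

open MeasureTheory ProbabilityTheory Set Filter Topology FG33 Mes BGS
open scoped ContDiff

namespace GWin

variable {Γ : Type} [Group Γ] [MulAction Γ Pl] {D : Set Pl}

theorem goeWindows2 {m : Mt Γ D} {G : Geo} {κ : ℝ} (h : Ok G κ) (hSR : SumRule G)
    (hl : Lev (lam m)) (hT : Trace G (lam m)) {L H : ℝ → ℝ} (hL : Tendsto L atTop atTop)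
    (hL' : Tendsto (fun T => L T / Real.log T) atTop (𝓝 0)) (hH : ∀ᶠ T in atTop, 0 < H T)
    (hS : Sep2 G L H) : FG35.GOEWindows m L H := by
  intro a ha
  exact main2 h hSR hl hT hL hL' hH hS ha

end GWin
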