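import Pool.Agent.LibGD33.Asm2
import Pool.Agent.LibSW35.U9
import Pool.Agent.LibSW35.SG

/-! Assembly: one metric, and almost every metric, short averages. -/

open MeasureTheory Set Filter Topology
open scoped ContDiff unitInterval

namespace GH

open BGM GWin

variable {Γ : Type} [Group Γ] {ell tr : Γ → ℝ}

theorem sep_of2 {L H : ℝ → ℝ}
    (hS : ∀ (r : ℕ) (C : ℝ), ∀ᶠ T : ℝ in atTop, ∀ (s : Finset Γ) (e : Γ → ℤ), s.card ≤ r →
      (∀ g ∈ s, Prim g) →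
      (∀ g ∈ s, ∀ g' ∈ s, g ≠ g' → ∀ γ : Γ, γ * g * γ⁻¹ ≠ g' ∧ γ * g * γ⁻¹ ≠ g'⁻¹) →
      (∀ g ∈ s, (|e g| : ℝ) ≤ C * L T) → (∀ g ∈ s, ell g ≤ C * L T) →
      (∃ g ∈ s, e g ≠ 0) → Real.exp (C * L T) ≤ H T * |∑ g ∈ s, e g * ell g|) :
    Sep2 (geo ell tr) L H := by
  classical
  intro r C
  filter_upwards [hS r C] with T hT
  show ∀ (s : Finset (PG Γ)) (e : PG Γ → ℤ), s.card ≤ r → (∃ p ∈ s, e p ≠ 0) →
    (∀ p ∈ s, |(e p : ℝ)| ≤ C * L T ∧ ell (rep p) ≤ C * L T) →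
    Real.exp (C * L T) ≤ H T * |∑ p ∈ s, (e p : ℝ) * ell (rep p)|
  intro s e hs he hb
  have hinj : Function.Injective (rep (Γ := Γ)) := by
    intro p p' hpp
    exact rep_inj (Or.inl (by rw [hpp]))
  obtain ⟨e', he'⟩ : ∃ e' : Γ → ℤ, ∀ p : PG Γ, e' (rep p) = e p := by
    refine ⟨fun g => if hg : ∃ p : PG Γ, rep p = g then e hg.choose else 0, fun p => ?_⟩
    have h1 : ∃ p' : PG Γ, rep p' = rep p := ⟨p, rfl⟩
    show (if hg : ∃ p' : PG Γ, rep p' = rep p then e hg.choose else 0) = e p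
    rw [dif_pos h1, hinj h1.choose_spec]
  have h1 := hT (s.image rep) e' ((Finset.card_image_le).trans hs)
    (fun g hg => by
      obtain ⟨p, -, rfl⟩ := Finset.mem_image.1 hg
      exact rep_prim p)
    (fun g hg g' hg' hne γ => by
      obtain ⟨p, -, rfl⟩ := Finset.mem_image.1 hg
      obtain ⟨p', -, rfl⟩ := Finset.mem_image.1 hg'
      constructor
      · intro h2
        exact hne (by rw [rep_inj (Or.inl (isConj_iff.2 ⟨γ, h2⟩))])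
      · intro h2
        exact hne (by rw [rep_inj (Or.inr (isConj_iff.2 ⟨γ, h2⟩))]))
    (fun g hg => by
      obtain ⟨p, hp, rfl⟩ := Finset.mem_image.1 hg
      rw [he' p]
      exact (hb p hp).1)
    (fun g hg => by
      obtain ⟨p, hp, rfl⟩ := Finset.mem_image.1 hg
      exact (hb p hp).2)
    (by
      obtain ⟨p, hp, hne⟩ := he
      exact ⟨rep p, Finset.mem_image_of_mem _ hp, by rw [he' p]; exact hne⟩)
  rw [Finset.sum_image fun p _ p' _ hpp => hinj hpp] at h1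
  refine h1.trans (le_of_eq ?_)
  congr 2
  refine Finset.sum_congr rfl fun p _ => ?_
  rw [he' p]

end GH

namespace GD

open BGS BR

variable {Γ : Type} [Group Γ] [MulAction Γ Pl] {D : Set Pl}

/-- One metric. -/
theorem one_metric2 (hX : Surface Γ D) (hO : Ori Γ) (m : Mt Γ D)
    (hSR : GWin.SumRule (GH.geo (BGM.tl m.1.1) (trg m.1.1) (Γ := Γ)))
    {L H : ℝ → ℝ} (hL : Tendsto L atTop atTop)
    (hL' : Tendsto (fun T => L T / Real.log T) atTop (𝓝 0)) (hH : ∀ᶠ T in atTop, 0 < H T)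
    (hS : BGM.SepG2 Γ m.1.1 L H) : FG35.GOEWindows m L H := by
  have hm : HM Γ m.1.1 := hm_of_Mt m
  obtain ⟨a, b, ha, hab, hk⟩ := curv_bounds hX hm
  have hG := grpData hX hO hm ha fun z => (hk z).2
  exact GWin.goeWindows2 (GH.ok_geo hG) hSR (lev hX m) (trace_geo hX hO m ha fun z => (hk z).2)
    hL hL' hH (GH.sep_of2 hS)

/-- Almost every metric. -/
theorem ae_metric2 (hX : Surface Γ D) (hO : Ori Γ)
    (hSR : ∀ m : Mt Γ D, GWin.SumRule (GH.geo (BGM.tl m.1.1) (trg m.1.1) (Γ := Γ)))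
    (w : ℝ → ℝ) (hw : Tendsto w atTop atTop) :
    ∃ φ : (ℕ × (ℤ × ℤ) → I) → Pl → ℝ,
      (∀ ξ, φ ξ ∈ Test Γ) ∧ (∀ z, Measurable fun ξ => φ ξ z) ∧
      (∀ m : Mt Γ D, ∀ U ∈ 𝓝 m, ∃ s₀ : ℝ, 0 < s₀ ∧ ∀ s : ℝ, 0 < s → s ≤ s₀ → ∀ ξ,
        ∃ m' ∈ U, ∃ q : ℝ, 0 < q ∧ ∀ z, m'.1.1 z = (q * Real.exp (s * φ ξ z)) • m.1.1 z) ∧
      ∀ m : Mt Γ D, ∀ ψ ∈ Test Γ, ∀ s : ℝ, 0 < s → s ≤ 1 →
        ∀ᵐ ξ ∂(Measure.infinitePi fun _ : ℕ × (ℤ × ℤ) => (volume : Measure I)), ∀ m' : Mt Γ D,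
          (∃ q : ℝ, 0 < q ∧ ∀ z, m'.1.1 z = (q * Real.exp (ψ z + s * φ ξ z)) • m.1.1 z) →
          ∀ L H : ℝ → ℝ, Tendsto L atTop atTop →
            Tendsto (fun T => L T / Real.log T) atTop (𝓝 0) →
            (∀ᶠ T in atTop, Real.exp (w (L T) * L T) ≤ H T) → FG35.GOEWindows m' L H := by
  obtain ⟨φ, h1, h2, h3, h4⟩ := BGM.sep_ae2 hX (BGM.h1_of hX) hw
  refine ⟨φ, h1, h2, h3, fun m ψ hψ s hs hs1 => ?_⟩
  filter_upwards [h4 m ψ hψ s hs hs1] with ξ hξ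
  intro m' hm' L H hL hL' hH
  exact one_metric2 hX hO m' (hSR m') hL hL' (hH.mono fun T h => (Real.exp_pos _).trans_le h)
    (hξ m' hm' L H hL hH)

end GD
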