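import Pool.Agent.LibFG35.Defs
import Pool.Agent.LibSW35.Asm
import Pool.Agent.LibSR85Z.Z1

/-! GOE fluctuations of the spectrum in mesoscopic windows, with short averages, for almost every
metric of negative curvature. -/

open MeasureTheory Set Filter Topology BGS
open scoped ContDiff unitInterval

namespace SW35Spare

theorem result {Γ : Type} [Group Γ] [MulAction Γ Pl] {D : Set Pl} (hX : Surface Γ D)
    (hO : ∀ (γ : Γ) (z : Pl), 0 < (fderiv ℝ (fun w : Pl => γ • w) z).det)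
    (w : ℝ → ℝ) (hw : Tendsto w atTop atTop) :
    ∃ φ : (ℕ × (ℤ × ℤ) → I) → Pl → ℝ,
      (∀ ξ, φ ξ ∈ Test Γ) ∧ (∀ z, Measurable fun ξ => φ ξ z) ∧
      (∀ m : Mt Γ D, ∀ U ∈ 𝓝 m, ∃ s₀ : ℝ, 0 < s₀ ∧ ∀ s : ℝ, 0 < s → s ≤ s₀ → ∀ ξ,
        ∃ m' ∈ U, ∃ q : ℝ, 0 < q ∧ ∀ z, m'.1.1 z = (q * Real.exp (s * φ ξ z)) • m.1.1 z) ∧
      ∀ m : Mt Γ D, ∀ ψ ∈ Test Γ, ∀ s : ℝ, 0 < s → s ≤ 1 →
        ∀ᵐ ξ ∂(Measure.infinitePi fun _ : ℕ × (ℤ × ℤ) => (volume : Measure I)), ∀ m' : Mt Γ D,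
          (∃ q : ℝ, 0 < q ∧ ∀ z, m'.1.1 z = (q * Real.exp (ψ z + s * φ ξ z)) • m.1.1 z) →
          ∀ L H : ℝ → ℝ, Tendsto L atTop atTop →
            Tendsto (fun T => L T / Real.log T) atTop (𝓝 0) →
            (∀ᶠ T in atTop, Real.exp (w (L T) * L T) ≤ H T) → FG35.GOEWindows m' L H :=
  GD.ae_metric2 hX hO (fun m => SR85Z.sumrule hX hO m) w hw

end SW35Spare
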