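import Pool.Agent.LibGW18.Mom

/-! Time averages over short intervals and torus averages. -/

open MeasureTheory ProbabilityTheory Set Filter Topology Mes

namespace GWin

/-- Comparison of the time average and the torus average. -/
theorem time_torus2 {ι P : Type} [Fintype P] [DecidableEq P] (S : Finset ι) (π : ι → P) (k : ι → ℤ)
    (c : ι → ℂ) (ℓ : P → ℝ) (r : ℕ) {δ A T : ℝ} (hδ : 0 < δ) (hT : 0 < T)
    (hsep : ∀ f : Fin r → ι × Bool, (∀ t, (f t).1 ∈ S) → (¬ ∀ p, expo π k f p = 0) →
      δ ≤ |∑ t, (sg (f t).2 : ℝ) * (k (f t).1 * ℓ (π (f t).1))|) :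
    |(1 / T) * (∫ u in A..A + T, (∑ q ∈ S, (c q * ex (u * (k q * ℓ (π q)))).re) ^ r) -
      ∫ θ : P → ℝ, (∑ q ∈ S, (c q * ex (2 * Real.pi * (k q * θ (π q)))).re) ^ r
        ∂(Measure.pi fun _ => un)| ≤ 2 * (∑ q ∈ S, ‖c q‖) ^ r / (T * δ) := by
  have e1 : (((1 / T) * (∫ u in A..A + T, (∑ q ∈ S, (c q * ex (u * (k q * ℓ (π q)))).re) ^ r) :
      ℝ) : ℂ) = ∑ f ∈ Fintype.piFinset (fun _ : Fin r => S ×ˢ (Finset.univ : Finset Bool)),
        (∏ t, cf2 c (f t)) * ((1 / T : ℝ) * ∫ u in A..A + T,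
          ex (u * ∑ t, (sg (f t).2 : ℝ) * (k (f t).1 * ℓ (π (f t).1)))) := by
    rw [Complex.ofReal_mul, ← intervalIntegral.integral_ofReal]
    simp_rw [pow_expand]
    rw [intervalIntegral.integral_finsetSum, Finset.mul_sum]
    · refine Finset.sum_congr rfl fun f _ => ?_
      rw [intervalIntegral.integral_const_mul]
      have e2 : ∀ u : ℝ, ∑ t, (sg (f t).2 : ℝ) * (u * (k (f t).1 * ℓ (π (f t).1))) =
          u * ∑ t, (sg (f t).2 : ℝ) * (k (f t).1 * ℓ (π (f t).1)) := by
        intro u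
        rw [Finset.mul_sum]
        exact Finset.sum_congr rfl fun t _ => by ring
      simp_rw [e2]
      ring
    · intro f _
      refine Continuous.intervalIntegrable ?_ _ _
      exact continuous_const.mul (ex_cont.comp (by fun_prop))
  have e3 : ((∫ θ : P → ℝ, (∑ q ∈ S, (c q * ex (2 * Real.pi * (k q * θ (π q)))).re) ^ r
      ∂(Measure.pi fun _ => un) : ℝ) : ℂ) =
      ∑ f ∈ Fintype.piFinset (fun _ : Fin r => S ×ˢ (Finset.univ : Finset Bool)),
        (∏ t, cf2 c (f t)) * (if ∀ p, expo π k f p = 0 then 1 else 0) := by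
    rw [← integral_complex_ofReal]
    simp_rw [pow_expand]
    rw [integral_finsetSum]
    · refine Finset.sum_congr rfl fun f _ => ?_
      rw [integral_const_mul, torus_mono]
    · intro f _
      refine Integrable.const_mul ?_ _
      refine Integrable.of_bound ?_ 1 (Eventually.of_forall fun θ => by rw [ex_norm])
      refine (ex_cont.comp ?_).aestronglyMeasurable
      fun_prop
  have e4 : ∀ x y : ℝ, |x - y| = ‖(x : ℂ) - (y : ℂ)‖ := by
    intro x y
    rw [← Complex.ofReal_sub, Complex.norm_real, Real.norm_eq_abs]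
  rw [e4, e1, e3, ← Finset.sum_sub_distrib]
  refine (norm_sum_le _ _).trans ?_
  have hterm : ∀ f ∈ Fintype.piFinset (fun _ : Fin r => S ×ˢ (Finset.univ : Finset Bool)),
      ‖(∏ t, cf2 c (f t)) * ((1 / T : ℝ) * ∫ u in A..A + T,
          ex (u * ∑ t, (sg (f t).2 : ℝ) * (k (f t).1 * ℓ (π (f t).1)))) -
        (∏ t, cf2 c (f t)) * (if ∀ p, expo π k f p = 0 then 1 else 0)‖ ≤
      ‖∏ t, cf2 c (f t)‖ * (2 / (T * δ)) := by
    intro f hf
    rw [← mul_sub, norm_mul]
    refine mul_le_mul_of_nonneg_left ?_ (norm_nonneg _)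
    by_cases h : ∀ p, expo π k f p = 0
    · rw [if_pos h]
      have h1 : ∑ t, (sg (f t).2 : ℝ) * (k (f t).1 * ℓ (π (f t).1)) = 0 := by
        rw [expo_sum]
        refine Finset.sum_eq_zero fun p _ => ?_
        rw [h p]
        simp
      have h2 : ∫ u in A..A + T, ex (u * 0) = (T : ℂ) := by
        simp_rw [mul_zero, ex_zero]
        rw [intervalIntegral.integral_const]
        simp only [Complex.real_smul, mul_one]
        congr 1
        ring
      rw [h1, h2]
      have h3 : ((1 / T : ℝ) : ℂ) * (T : ℂ) - 1 = 0 := by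
        rw [← Complex.ofReal_mul, one_div, inv_mul_cancel₀ hT.ne']
        simp
      rw [h3, norm_zero]
      positivity
    · rw [if_neg h, sub_zero]
      have hS : ∀ t, (f t).1 ∈ S := fun t => by
        have := Fintype.mem_piFinset.1 hf t
        exact (Finset.mem_product.1 this).1
      have h1 := hsep f hS h
      have h2 : ∑ t, (sg (f t).2 : ℝ) * (k (f t).1 * ℓ (π (f t).1)) ≠ 0 := by
        intro h3
        rw [h3, abs_zero] at h1
        linarith
      have h4 := ex_interval (a := A) (b := A + T) h2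
      rw [norm_mul, Complex.norm_real, Real.norm_eq_abs, abs_of_pos (by positivity)]
      calc 1 / T * ‖∫ u in A..A + T, ex (u * ∑ t, (sg (f t).2 : ℝ) *
            (k (f t).1 * ℓ (π (f t).1)))‖
          ≤ 1 / T * (2 / |∑ t, (sg (f t).2 : ℝ) * (k (f t).1 * ℓ (π (f t).1))|) :=
            mul_le_mul_of_nonneg_left h4 (by positivity)
        _ ≤ 1 / T * (2 / δ) := by
            refine mul_le_mul_of_nonneg_left ?_ (by positivity)
            exact div_le_div_of_nonneg_left (by norm_num) hδ h1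
        _ = 2 / (T * δ) := by
            field_simp
  refine (Finset.sum_le_sum hterm).trans (le_of_eq ?_)
  rw [← Finset.sum_mul, cf2_sum]
  ring

end GWin
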